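import Pool.Agent.Run7.h416.LW.Inc

/-!
The two key estimates: a point on two lines of the same level, a line with many points.
-/

set_option autoImplicit false
set_option linter.all false

namespace Run7.h416.LW
open Classical Finset Run7.h520.LW

variable {V : Type} [DecidableEq V] {G : Str V}

/-- the lines of `A` through `p` -/
noncomputable def Lp (G : Str V) (p : V) (A : Finset V) : Finset (ℕ × List V) :=
  (lin A).filter (fun l => G.On p l)

theorem mem_Lp {p : V} {A : Finset V} {l : ℕ × List V} : l ∈ Lp G p A ↔ l ∈ lin A ∧ G.On p l := by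
  unfold Lp
  rw [Finset.mem_filter]

theorem nl_eq (i : ℕ) (p : V) (A : Finset V) :
    G.nl i p A = ((Lp G p A).filter (fun l => l.1 = i)).card := by
  unfold Str.nl Lp
  rw [Finset.filter_filter]
  congr 1
  ext l
  simp only [Finset.mem_filter]
  tauto

/-- the number of lines of level `i` through `p` and `x` -/
noncomputable def nn (G : Str V) (i : ℕ) (p x : V) (A : Finset V) : ℕ :=
  ((Lp G p A).filter (fun l => l.1 = i ∧ G.On x l)).card

theorem nn_le (i : ℕ) (p x : V) (A : Finset V) : nn G i p x A ≤ G.nl i p A := by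
  rw [nl_eq]
  apply Finset.card_le_card
  intro l hl
  rw [Finset.mem_filter] at hl ⊢
  exact ⟨hl.1, hl.2.1⟩

/-- the total excess on one level -/
theorem sum_excess {Z : Set V} {A D : Finset V} {p : V} (hC1 : G.C1 Z) (hA : ↑A ⊆ Z) (hD : D ⊆ A)
    (i : ℕ) : ((∑ x ∈ D, (nn G i p x A - 1) : ℕ) : ℝ) ≤
      if 2 ≤ G.nl i p A then (K i : ℝ) * (g i * G.nl i p A) else 0 := by
  split_ifs with h2
  · set S := ((Lp G p A).filter (fun l => l.1 = i)).biUnion (fun l => l.2.toFinset) with hS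
    have hSA : S ⊆ A := by
      intro x hx
      rw [hS, Finset.mem_biUnion] at hx
      obtain ⟨l, hl, hx⟩ := hx
      rw [Finset.mem_filter, mem_Lp, mem_lin] at hl
      exact hl.1.1.2.2 x (List.mem_toFinset.1 hx)
    have hScard : S.card ≤ G.nl i p A * g i := by
      rw [nl_eq]
      apply Finset.card_biUnion_le_card_mul
      intro l hl
      rw [Finset.mem_filter, mem_Lp, mem_lin] at hl
      calc l.2.toFinset.card ≤ l.2.length := List.toFinset_card_le _
        _ = g i := by rw [hl.1.1.1, hl.2]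
    have hc := hC1 i S (D.filter (fun x => 2 ≤ nn G i p x A)) ((Finset.coe_subset.2 hSA).trans hA)
      (((Finset.coe_subset.2 ((Finset.filter_subset _ _).trans hD))).trans hA)
    have h3 : ((∑ x ∈ D, (nn G i p x A - 1) : ℕ) : ℤ) ≤
        ∑ x ∈ D.filter (fun x => 2 ≤ nn G i p x A), (2 * (G.nl i x S : ℤ) - 3) := by
      have e1 : ∑ x ∈ D, (nn G i p x A - 1) =
          ∑ x ∈ D.filter (fun x => 2 ≤ nn G i p x A), (nn G i p x A - 1) := by
        rw [Finset.sum_filter]
        apply Finset.sum_congr rfl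
        intro x _
        split_ifs with h
        · rfl
        · omega
      rw [e1]
      push_cast
      apply Finset.sum_le_sum
      intro x hx
      rw [Finset.mem_filter] at hx
      have e2 : nn G i p x A ≤ G.nl i x S := by
        unfold nn Str.nl
        apply Finset.card_le_card
        intro l hl
        rw [Finset.mem_filter] at hl ⊢
        have hl' : l ∈ (Lp G p A).filter (fun l => l.1 = i) := Finset.mem_filter.2 ⟨hl.1, hl.2.1⟩
        refine ⟨?_, hl.2⟩
        have h5 := mem_lin.1 (mem_Lp.1 hl.1).1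
        rw [mem_lin]
        refine ⟨h5.1, h5.2.1, fun y hy => ?_⟩
        rw [hS, Finset.mem_biUnion]
        exact ⟨l, hl', List.mem_toFinset.2 hy⟩
      omega
    have h4 : ((∑ x ∈ D, (nn G i p x A - 1) : ℕ) : ℤ) ≤ K i * S.card := h3.trans hc
    have h5 : (∑ x ∈ D, (nn G i p x A - 1) : ℕ) ≤ K i * S.card := by exact_mod_cast h4
    have h6 : (∑ x ∈ D, (nn G i p x A - 1) : ℕ) ≤ K i * (g i * G.nl i p A) := by
      refine h5.trans (Nat.mul_le_mul_left _ ?_)
      rw [mul_comm]
      exact hScard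
    exact_mod_cast h6
  · have : (∑ x ∈ D, (nn G i p x A - 1) : ℕ) = 0 := by
      apply Finset.sum_eq_zero
      intro x _
      have := nn_le (G := G) i p x A
      omega
    rw [this]
    simp

/-- the cost of one edge -/
theorem edge_cost {A : Finset V} {p x : V} :
    ∑ l ∈ (lin A).filter (fun l => G.On p l ∧ G.On x l), q (l.1 + 1) - w 0 ≤
      ∑ i ∈ (Lp G p A).image Prod.fst, ((nn G i p x A - 1 : ℕ) : ℝ) * q (i + 1) := by
  have e1 : (lin A).filter (fun l => G.On p l ∧ G.On x l) = (Lp G p A).filter (fun l => G.On x l) := by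
    unfold Lp
    rw [Finset.filter_filter]
  rw [e1]
  have hmaps : ∀ l ∈ (Lp G p A).filter (fun l => G.On x l), l.1 ∈ (Lp G p A).image Prod.fst := by
    intro l hl
    exact Finset.mem_image_of_mem _ (Finset.mem_filter.1 hl).1
  rw [← Finset.sum_fiberwise_of_maps_to hmaps]
  have e2 : ∀ i ∈ (Lp G p A).image Prod.fst,
      ∑ l ∈ ((Lp G p A).filter (fun l => G.On x l)).filter (fun l => l.1 = i), q (l.1 + 1) =
        (nn G i p x A : ℝ) * q (i + 1) := by
    intro i _
    rw [← nsmul_eq_mul]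
    have : ((Lp G p A).filter (fun l => G.On x l)).filter (fun l => l.1 = i) =
        (Lp G p A).filter (fun l => l.1 = i ∧ G.On x l) := by
      rw [Finset.filter_filter]
      congr 1
      ext l
      tauto
    rw [this]
    unfold nn
    apply Finset.sum_eq_card_nsmul
    intro l hl
    rw [(Finset.mem_filter.1 hl).2.1]
  rw [Finset.sum_congr rfl e2]
  have h1 := w_levels' (((Lp G p A).image Prod.fst).filter (fun i => 1 ≤ nn G i p x A))
  rw [Finset.sum_filter] at h1
  have h2 : ∑ i ∈ (Lp G p A).image Prod.fst, (nn G i p x A : ℝ) * q (i + 1) =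
      ∑ i ∈ (Lp G p A).image Prod.fst, ((nn G i p x A - 1 : ℕ) : ℝ) * q (i + 1) +
        ∑ i ∈ (Lp G p A).image Prod.fst, (if 1 ≤ nn G i p x A then q (i + 1) else 0) := by
    rw [← Finset.sum_add_distrib]
    apply Finset.sum_congr rfl
    intro i _
    split_ifs with h
    · rw [Nat.cast_sub h]
      push_cast
      ring
    · have : nn G i p x A = 0 := by omega
      rw [this]
      simp
  linarith

theorem sum_a {A : Finset V} {p : V} : ∑ l ∈ Lp G p A, a l.1 =
    ∑ i ∈ (Lp G p A).image Prod.fst, (G.nl i p A : ℝ) * a i := by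
  have hmaps : ∀ l ∈ Lp G p A, l.1 ∈ (Lp G p A).image Prod.fst :=
    fun l hl => Finset.mem_image_of_mem _ hl
  rw [← Finset.sum_fiberwise_of_maps_to hmaps]
  apply Finset.sum_congr rfl
  intro i _
  rw [nl_eq, ← nsmul_eq_mul]
  apply Finset.sum_eq_card_nsmul
  intro l hl
  rw [(Finset.mem_filter.1 hl).2]

theorem eps_small (i : ℕ) : 2 * (q (i + 1) * (K i * g i)) * 2 ^ 29 ≤ q i := by
  have h1 := KN_small i
  have h2 : (1 : ℝ) ≤ N i := by exact_mod_cast N_pos i
  have h3 := q_pos (i + 1)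
  have h4 : (0 : ℝ) ≤ K i * g i * q (i + 1) * 2 ^ 30 := by positivity
  nlinarith [mul_le_mul_of_nonneg_left h2 h4]

/-- **Key estimate P.** -/
theorem key_P (hC : S_CALC) {Z : Set V} {A : Finset V} {p : V} {j : ℕ} (hC1 : G.C1 Z) (hA : ↑A ⊆ Z)
    (hp : p ∉ A) (hj : 2 ≤ G.nl j p A) :
    G.dl (insert p A) + q j / 4 * (2 * (G.nl j p A : ℝ) - 3) ≤ G.dl A := by
  have hpt : G.pt p := by
    obtain ⟨l, _, _, hl⟩ := Str.nl_pos_iff.1 (by omega : 0 < G.nl j p A)
    exact hl.1
  have h1 := dl_point hC hp hpt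
  set D := A.filter (fun x => G.R p x) with hD
  set I := (Lp G p A).image Prod.fst with hI
  have h2 : ∑ x ∈ D, (∑ l ∈ (lin A).filter (fun l => G.On p l ∧ G.On x l), q (l.1 + 1) - w 0) ≤
      ∑ i ∈ I, (if 2 ≤ G.nl i p A then (K i : ℝ) * (g i * G.nl i p A) else 0) * q (i + 1) := by
    calc ∑ x ∈ D, (∑ l ∈ (lin A).filter (fun l => G.On p l ∧ G.On x l), q (l.1 + 1) - w 0)
        ≤ ∑ x ∈ D, ∑ i ∈ I, ((nn G i p x A - 1 : ℕ) : ℝ) * q (i + 1) :=
          Finset.sum_le_sum (fun x _ => edge_cost)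
      _ = ∑ i ∈ I, ((∑ x ∈ D, (nn G i p x A - 1) : ℕ) : ℝ) * q (i + 1) := by
          rw [Finset.sum_comm]
          apply Finset.sum_congr rfl
          intro i _
          rw [← Finset.sum_mul]
          push_cast
          rfl
      _ ≤ _ := by
          apply Finset.sum_le_sum
          intro i _
          exact mul_le_mul_of_nonneg_right (sum_excess hC1 hA (Finset.filter_subset _ _) i)
            (q_pos _).le
  have h3 : ∑ l ∈ (lin A).filter (fun l => G.On p l), a l.1 = ∑ i ∈ I, (G.nl i p A : ℝ) * a i :=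
    sum_a
  rw [h3] at h1
  -- the terms
  set F : ℕ → ℝ := fun i => (G.nl i p A : ℝ) * a i -
    2 * ((if 2 ≤ G.nl i p A then (K i : ℝ) * (g i * G.nl i p A) else 0) * q (i + 1)) with hF
  have h4 : G.dl (insert p A) + ∑ i ∈ I, F i ≤ G.dl A + wt := by
    have : ∑ i ∈ I, F i = ∑ i ∈ I, (G.nl i p A : ℝ) * a i -
        2 * ∑ i ∈ I, (if 2 ≤ G.nl i p A then (K i : ℝ) * (g i * G.nl i p A) else 0) * q (i + 1) := by
      rw [Finset.mul_sum, ← Finset.sum_sub_distrib]
    rw [this]
    linarith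
  have hF2 : ∀ i, 2 ≤ G.nl i p A → F i = (G.nl i p A : ℝ) * (a i - 2 * (q (i + 1) * (K i * g i))) := by
    intro i hi
    simp only [hF, if_pos hi]
    ring
  have hFa : ∀ i, 1 ≤ G.nl i p A → a i ≤ F i := by
    intro i hi
    by_cases h : 2 ≤ G.nl i p A
    · rw [hF2 i h]
      have e1 := eps_small i
      have e2 := a_ge i
      have e3 := q_pos i
      have e4 : (2 : ℝ) ≤ G.nl i p A := by exact_mod_cast h
      have e5 := a_le i
      have e6 : q i * (1 - 1 / 2 ^ 38 - 1 / 2 ^ 29) ≤ a i - 2 * (q (i + 1) * (K i * g i)) := by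
        have : 2 * (q (i + 1) * (K i * g i)) ≤ q i * (1 / 2 ^ 29) := by
          have : (2 : ℝ) ^ 29 * (1 / 2 ^ 29) = 1 := by norm_num
          nlinarith
        linarith
      have e7 : 0 ≤ a i - 2 * (q (i + 1) * (K i * g i)) := by
        refine le_trans ?_ e6
        have : (0 : ℝ) ≤ 1 - 1 / 2 ^ 38 - 1 / 2 ^ 29 := by norm_num
        exact mul_nonneg e3.le this
      have e8 : 2 * (a i - 2 * (q (i + 1) * (K i * g i))) ≤
          (G.nl i p A : ℝ) * (a i - 2 * (q (i + 1) * (K i * g i))) :=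
        mul_le_mul_of_nonneg_right e4 e7
      have e9 : q i ≤ 2 * (q i * (1 - 1 / 2 ^ 38 - 1 / 2 ^ 29)) := by
        have : (1 : ℝ) ≤ 2 * (1 - 1 / 2 ^ 38 - 1 / 2 ^ 29) := by norm_num
        nlinarith
      linarith
    · have e1 : G.nl i p A = 1 := by omega
      simp only [hF, if_neg h, e1]
      simp
  have hIpos : ∀ i ∈ I, 1 ≤ G.nl i p A := by
    intro i hi
    rw [hI, Finset.mem_image] at hi
    obtain ⟨l, hl, rfl⟩ := hi
    rw [mem_Lp] at hl
    exact Str.nl_pos_iff.2 ⟨l, hl.1, rfl, hl.2⟩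
  have hmemI : ∀ i, 1 ≤ G.nl i p A → i ∈ I := by
    intro i hi
    obtain ⟨l, h1, h2, h3⟩ := Str.nl_pos_iff.1 hi
    rw [hI, Finset.mem_image]
    exact ⟨l, mem_Lp.2 ⟨h1, h3⟩, h2⟩
  have hsub : insert j (Finset.range j) ⊆ I := by
    intro i hi
    rw [Finset.mem_insert, Finset.mem_range] at hi
    apply hmemI
    exact Str.nl_pre (by omega : 0 < G.nl j p A) (by omega)
  have h5 : ∑ i ∈ insert j (Finset.range j), F i ≤ ∑ i ∈ I, F i := by
    apply Finset.sum_le_sum_of_subset_of_nonneg hsub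
    intro i hi _
    exact (a_pos i).le.trans (hFa i (hIpos i hi))
  rw [Finset.sum_insert (by simp)] at h5
  have h6 : ∑ i ∈ Finset.range j, a i ≤ ∑ i ∈ Finset.range j, F i := by
    apply Finset.sum_le_sum
    intro i hi
    rw [Finset.mem_range] at hi
    exact hFa i (Str.nl_pre (by omega : 0 < G.nl j p A) hi.le)
  have h7 := r_eq j
  have h8 : r j ≤ q j := by
    unfold r
    have := w_pos j
    linarith
  rw [hF2 j hj] at h5
  have e1 := eps_small j
  have e2 := a_ge j
  have e3 := q_pos j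
  have e4 : (2 : ℝ) ≤ G.nl j p A := by exact_mod_cast hj
  have e6 : q j * (1 - 1 / 2 ^ 38 - 1 / 2 ^ 29) ≤ a j - 2 * (q (j + 1) * (K j * g j)) := by
    have : 2 * (q (j + 1) * (K j * g j)) ≤ q j * (1 / 2 ^ 29) := by
      have : (2 : ℝ) ^ 29 * (1 / 2 ^ 29) = 1 := by norm_num
      nlinarith
    linarith
  have e8 : (G.nl j p A : ℝ) * (q j * (1 - 1 / 2 ^ 38 - 1 / 2 ^ 29)) ≤
      (G.nl j p A : ℝ) * (a j - 2 * (q (j + 1) * (K j * g j))) :=
    mul_le_mul_of_nonneg_left e6 (by linarith)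
  have e9 : q j + q j / 4 * (2 * (G.nl j p A : ℝ) - 3) ≤
      (G.nl j p A : ℝ) * (q j * (1 - 1 / 2 ^ 38 - 1 / 2 ^ 29)) := by
    have : q j * (1 + 1 / 4 * (2 * (G.nl j p A : ℝ) - 3)) ≤
        q j * ((G.nl j p A : ℝ) * (1 - 1 / 2 ^ 38 - 1 / 2 ^ 29)) := by
      apply mul_le_mul_of_nonneg_left _ e3.le
      nlinarith
    linarith
  linarith

/-- **Key estimate L.** -/
theorem key_L (hC : S_CALC) {Z : Set V} {A : Finset V} {l : ℕ × List V} (hA : ↑A ⊆ Z)
    (hinv : ∀ l : ℕ × List V, (∀ x ∈ l.2, x ∈ Z) → (∃ x ∈ l.2, x ∉ A) →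
      (G.pts l A).card ≤ 2 * N l.1)
    (hl : ∀ x ∈ l.2, x ∈ Z) (hN : N l.1 ≤ (G.pts l A).card) (hx : ∃ x ∈ l.2, x ∉ A) :
    (∀ x ∈ l.2.toFinset, ¬ G.pt x) ∧ G.dl (A ∪ l.2.toFinset) + 1 / 2 ≤ G.dl A := by
  have hNp := N_pos l.1
  obtain ⟨y, hy⟩ : (G.pts l A).Nonempty := by
    rw [← Finset.card_pos]
    omega
  rw [Str.mem_pts] at hy
  have hnopt : ∀ x ∈ l.2.toFinset, ¬ G.pt x := fun x hx => hy.2.ne (List.mem_toFinset.1 hx)
  refine ⟨hnopt, ?_⟩
  set T := l.2.toFinset \ A with hT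
  have hAT : A ∪ T = A ∪ l.2.toFinset := by rw [hT, Finset.union_sdiff_self_eq_union]
  have hnoptT : ∀ x ∈ T, ¬ G.pt x := fun x hx => hnopt x (Finset.mem_sdiff.1 hx).1
  have hd : Disjoint A T := by
    rw [hT]
    exact Finset.disjoint_sdiff
  have hZ : ∀ l' ∈ lin (A ∪ T), ∀ x ∈ l'.2, x ∈ Z := by
    intro l' hl' x hx
    rcases Finset.mem_union.1 ((mem_lin.1 hl').2.2 x hx) with h | h
    · exact hA h
    · exact hl x (List.mem_toFinset.1 (Finset.mem_sdiff.1 (hT ▸ h)).1)
  have h1 := dl_letters (G := G) hC hnoptT hd (fun i => 2 * N i) (by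
    intro l' hl' hl'A
    have h2 : ∃ x ∈ l'.2, x ∉ A := by
      by_contra hcon
      push Not at hcon
      exact hl'A (mem_lin.2 ⟨(mem_lin.1 hl').1, (mem_lin.1 hl').2.1, hcon⟩)
    have h3 := hinv l' (hZ l' hl') h2
    exact_mod_cast h3)
  rw [hAT] at h1
  have hTcard : (T.card : ℝ) ≤ g l.1 := by
    have : T.card ≤ g l.1 := by
      calc T.card ≤ l.2.toFinset.card := Finset.card_le_card Finset.sdiff_subset
        _ ≤ l.2.length := List.toFinset_card_le _
        _ = g l.1 := hy.2.2.1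
    exact_mod_cast this
  -- all the terms are nonnegative
  have hterm : ∀ i, q i / 2 ≤ a i - 2 * (N i : ℝ) * q (i + 1) := by
    intro i
    have e1 := N_small i
    have e2 := a_ge i
    have e3 := q_pos i
    have e4 : (2 : ℝ) * N i * q (i + 1) ≤ q i * (1 / 2 ^ 29) := by
      have : (2 : ℝ) ^ 30 * (1 / 2 ^ 29) = 2 := by norm_num
      nlinarith
    nlinarith
  have h2 : (N l.1 : ℝ) * (q l.1 / 2) ≤
      ∑ p ∈ G.nic A T, (a p.2.1 - 2 * (N p.2.1 : ℝ) * q (p.2.1 + 1)) := by
    calc (N l.1 : ℝ) * (q l.1 / 2) ≤ ((G.pts l A).card : ℝ) * (q l.1 / 2) := by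
          apply mul_le_mul_of_nonneg_right _ (by have := q_pos l.1; linarith)
          exact_mod_cast hN
      _ = ∑ x ∈ G.pts l A, q l.1 / 2 := by rw [Finset.sum_const, nsmul_eq_mul]
      _ ≤ ∑ x ∈ G.pts l A, (a l.1 - 2 * (N l.1 : ℝ) * q (l.1 + 1)) :=
          Finset.sum_le_sum (fun _ _ => hterm l.1)
      _ = ∑ p ∈ (G.pts l A).image (fun x => (x, l)), (a p.2.1 - 2 * (N p.2.1 : ℝ) * q (p.2.1 + 1)) := by
          rw [Finset.sum_image]
          intro x _ y _ hxy
          exact (Prod.mk.injEq _ _ _ _ ▸ hxy).1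
      _ ≤ _ := by
          apply Finset.sum_le_sum_of_subset_of_nonneg
          · intro e he
            rw [Finset.mem_image] at he
            obtain ⟨x, hx', rfl⟩ := he
            rw [Str.mem_pts] at hx'
            rw [mem_nic, Str.mem_ic, Str.mem_ic, Str.mem_ic]
            refine ⟨⟨Finset.mem_union_left _ hx'.1, ?_, hx'.2⟩, ?_, ?_⟩
            · rw [mem_lin]
              refine ⟨hx'.2.2.1, hx'.2.2.2.1, fun z hz => ?_⟩
              rw [hAT]
              exact Finset.mem_union_right _ (List.mem_toFinset.2 hz)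
            · intro h
              obtain ⟨z, hz, hzA⟩ := hx
              exact hzA ((mem_lin.1 h.2.1).2.2 z hz)
            · intro h
              exact hnoptT _ h.1 hx'.2.1
          · intro e _ _
            exact le_trans (by have := q_pos e.2.1; linarith) (hterm e.2.1)
  have h3 := N_mul l.1
  have h4 : wt * (T.card : ℝ) ≤ g l.1 := by
    have e1 : wt * (T.card : ℝ) ≤ 1 * (T.card : ℝ) :=
      mul_le_mul_of_nonneg_right wt_le (Nat.cast_nonneg _)
    linarith
  have h5 := g_ge' l.1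
  linarith

end Run7.h416.LW
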