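import Pool.Agent.Run7.h520.LW.I2

/-!
# Piece BETA of the interface `Pool.Agent.Run7.h520.LW.I2` (MP_75b3be_lc)

The cost of the new edges between `XD` and `XU` is charged to the incidences of `XD ∪ P` neither in
`XD` nor in `P`, and to the incidences of `XU ∪ X1` neither in `XU` nor in `X1`.
-/

set_option autoImplicit false
set_option linter.all false

namespace Run7.h416.LW.Be
open Classical Run7.h520.LW

theorem pre_self {V : Type} {l : ℕ × List V} (h : l.2.length = g l.1) : pre l.1 l = l := by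
  unfold pre
  rw [← h, List.take_length]

theorem mis_le {V : Type} {l : ℕ × List V} {X : Finset V} (h : l.2.length = g l.1)
    (hx : ∃ x ∈ l.2, x ∉ X) : mis l X ≤ l.1 := by
  refine Nat.sInf_le ?_
  show ∃ x ∈ (pre l.1 l).2, x ∉ X
  rw [pre_self h]; exact hx

theorem mis_spec {V : Type} {l : ℕ × List V} {X : Finset V} (h : l.2.length = g l.1)
    (hx : ∃ x ∈ l.2, x ∉ X) : ∃ x ∈ (pre (mis l X) l).2, x ∉ X := by
  have hne : {i | ∃ x ∈ (pre i l).2, x ∉ X}.Nonempty := ⟨l.1, by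
    show ∃ x ∈ (pre l.1 l).2, x ∉ X
    rw [pre_self h]; exact hx⟩
  exact Nat.sInf_mem hne

section

variable {M : Str ℕ} {Ω : Set ℕ} {b0 h : ℕ} {T U Q B A P W D : Finset ℕ}
  {σ : ℕ → ℕ → ℕ} {τ : ℕ → ℕ} {lp : ℕ → ℕ × List ℕ}

theorem QP (c : Cfg M Ω b0 h T U Q B A P W D σ τ lp) : Q ⊆ P := by
  rw [← c.UP]; exact Finset.inter_subset_right

theorem embτ (E : S_EMB) (c : Cfg M Ω b0 h T U Q B A P W D σ τ lp) : Emb M M P τ := by
  obtain ⟨t, ht⟩ := c.ne
  exact E.congr (E.mono (c.emb t ht) c.PW) fun x hx => (c.σP t ht x hx).symm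

/-- the facts about a new edge -/
structure NF (M : Str ℕ) (h : ℕ) (T Q A P XU : Finset ℕ) (σ : ℕ → ℕ → ℕ) (τ : ℕ → ℕ)
    (lp : ℕ → ℕ × List ℕ) (y p : ℕ) : Prop where
  le : mis (lp p) XU ≤ (lp p).1
  hh : h < (lp p).1
  len : (lp p).2.length = g (lp p).1
  onp : M.On p (pre (mis (lp p) XU) (lp p))
  letP : ∀ z ∈ (pre (mis (lp p) XU) (lp p)).2, z ∈ P
  nXU : ∃ z ∈ (pre (mis (lp p) XU) (lp p)).2, z ∉ XU
  ony : M.On y (mis (lp p) XU, (pre (mis (lp p) XU) (lp p)).2.map τ)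
  yP : y ∉ P
  pP : p ∉ P
  letQ : mis (lp p) XU < (lp p).1 → ∀ z ∈ (pre (mis (lp p) XU) (lp p)).2, z ∈ Q
  ex : ∃ t ∈ T, ∃ x ∈ A, σ t x = y

theorem nf (c : Cfg M Ω b0 h T U Q B A P W D σ τ lp) {XU : Finset ℕ} (hXU : XU ⊆ U) {y p : ℕ}
    (hE : nE M T U B A σ y p) : NF M h T Q A P XU σ τ lp y p := by
  obtain ⟨t, ht, x, hx, hxU, hp, hpB, hR, hy⟩ := hE
  obtain ⟨h1, h2, h3, h4, h5, h6⟩ := c.lp_ p hp hpB x hx hxU hR
  have hlen : (lp p).2.length = g (lp p).1 := h2.2.1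
  have hn : ∃ z ∈ (lp p).2, z ∉ XU := by
    obtain ⟨z, hz, hzU⟩ := h5
    exact ⟨z, hz, fun h => hzU (hXU h)⟩
  have hle : mis (lp p) XU ≤ (lp p).1 := mis_le hlen hn
  have hlP : ∀ z ∈ (pre (mis (lp p) XU) (lp p)).2, z ∈ P := fun z hz =>
    h4 z (List.mem_of_mem_take hz)
  have hxP : x ∉ P := fun hxP =>
    hxU (c.AP (Finset.mem_inter.2 ⟨(Finset.mem_inter.1 hx).1, hxP⟩))
  have hxW : x ∈ W := c.BW (Finset.mem_inter.1 hx).2
  have hmap : (pre (mis (lp p) XU) (lp p)).2.map (σ t) = (pre (mis (lp p) XU) (lp p)).2.map τ :=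
    List.map_congr_left fun z hz => c.σP t ht z (hlP z hz)
  refine ⟨hle, h1, hlen, h2.pre hle, hlP, mis_spec hlen hn, ?_, ?_, ?_, fun hlt => h6 _ hlt, ?_⟩
  · have h7 := ((c.emb t ht).on x hxW (pre (mis (lp p) XU) (lp p))
      fun z hz => c.PW (hlP z hz)).2 (h3.pre hle)
    rw [hmap, hy] at h7
    exact h7
  · intro hyP
    rw [← c.τP, Finset.mem_image] at hyP
    obtain ⟨z, hz, hzy⟩ := hyP
    have h8 : σ t x = σ t z := by rw [hy, c.σP t ht z hz, hzy]
    have h9 := (c.emb t ht).inj x hxW z (c.PW hz) h8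
    rw [h9] at hxP
    exact hxP hz
  · intro hpP
    have h10 : p ∈ U ∩ P := Finset.mem_inter.2 ⟨(Finset.mem_inter.1 hp).2, hpP⟩
    rw [c.UP, ← c.UB] at h10
    exact hpB (Finset.mem_inter.1 h10).2
  · exact ⟨t, ht, x, (Finset.mem_inter.1 hx).1, hy⟩

theorem map_inj_list (hinj : ∀ x ∈ P, ∀ y ∈ P, τ x = τ y → x = y) :
    ∀ (l l' : List ℕ), (∀ z ∈ l, z ∈ P) → (∀ z ∈ l', z ∈ P) → l.map τ = l'.map τ → l = l' := by
  intro l
  induction l with
  | nil =>
    intro l' _ _ h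
    cases l' with
    | nil => rfl
    | cons b l' => simp at h
  | cons b l ih =>
    intro l' h1 h2 h
    cases l' with
    | nil => simp at h
    | cons b' l' =>
      rw [List.map_cons, List.map_cons, List.cons.injEq] at h
      rw [hinj b (h1 b (by simp)) b' (h2 b' (by simp)) h.1,
        ih l' (fun z hz => h1 z (by simp [hz])) (fun z hz => h2 z (by simp [hz])) h.2]

theorem Nw_le (i : ℕ) : 2 * ((N i : ℝ) * w i) ≤ a i / 8 := by
  have h1 := N_small i
  have h2 := w_le i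
  have h3 := a_ge i
  have h4 := q_pos i
  have h5 : (0 : ℝ) ≤ N i := Nat.cast_nonneg _
  have h6 : (N i : ℝ) * w i ≤ N i * (2 * q (i + 1)) := mul_le_mul_of_nonneg_left h2 h5
  nlinarith

/-- the new edges between `XD` and `XU` -/
noncomputable def EE (M : Str ℕ) (T U B A : Finset ℕ) (σ : ℕ → ℕ → ℕ) (XD XU : Finset ℕ) :
    Finset (ℕ × ℕ) := (XD ×ˢ XU).filter (fun e => nE M T U B A σ e.1 e.2)

theorem mem_EE {XD XU : Finset ℕ} {e : ℕ × ℕ} :
    e ∈ EE M T U B A σ XD XU ↔ e.1 ∈ XD ∧ e.2 ∈ XU ∧ nE M T U B A σ e.1 e.2 := by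
  unfold EE; rw [Finset.mem_filter, Finset.mem_product, and_assoc]

/-- the image of the line is not in `XD` -/
def Bd (τ : ℕ → ℕ) (lp : ℕ → ℕ × List ℕ) (XD XU : Finset ℕ) (e : ℕ × ℕ) : Prop :=
  ∃ z ∈ (pre (mis (lp e.2) XU) (lp e.2)).2, τ z ∉ XD

/-- first charge -/
theorem charge1 (E : S_EMB) (c : Cfg M Ω b0 h T U Q B A P W D σ τ lp) {XD XU : Finset ℕ}
    (F : Fit M Ω U Q D τ XD XU) :
    2 * ∑ e ∈ (EE M T U B A σ XD XU).filter
        (fun e => Bd τ lp XD XU e), w (mis (lp e.2) XU) ≤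
      (∑ p ∈ M.nic XD P, a p.2.1) / 8 := by
  have hτ := embτ E c
  set E1 := (EE M T U B A σ XD XU).filter
        (fun e => Bd τ lp XD XU e) with hE1
  set φ : ℕ × ℕ → ℕ × (ℕ × List ℕ) := fun e =>
    (e.1, (mis (lp e.2) XU, (pre (mis (lp e.2) XU) (lp e.2)).2.map τ)) with hφ
  have hmaps : ∀ e ∈ E1, φ e ∈ M.nic XD P := by
    intro e he
    rw [hE1, Finset.mem_filter, mem_EE] at he
    obtain ⟨⟨h1, h2, h3⟩, z, hz, hzD⟩ := he
    have n := nf c F.sU h3
    have hlin : ∀ z ∈ (pre (mis (lp e.2) XU) (lp e.2)).2.map τ, z ∈ P := by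
      intro z hz
      rw [List.mem_map] at hz
      obtain ⟨z', hz', rfl⟩ := hz
      rw [← c.τP]
      exact Finset.mem_image_of_mem _ (n.letP z' hz')
    unfold Str.nic
    rw [Finset.mem_filter, Str.mem_ic, Str.mem_ic, Str.mem_ic]
    refine ⟨⟨Finset.mem_union_left _ h1, n.ony.isLn fun z hz => Finset.mem_union_right _
      (hlin z hz), n.ony⟩, ?_, ?_⟩
    · rintro ⟨_, h4, _⟩
      exact hzD ((mem_lin.1 h4).2.2 _ (List.mem_map_of_mem hz))
    · rintro ⟨h4, _⟩
      exact n.yP h4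
  have hfib : ∀ L ∈ M.nic XD P, 2 * ∑ e ∈ E1.filter (fun e => φ e = L), w (mis (lp e.2) XU) ≤
      a L.2.1 / 8 := by
    intro L hL
    have hw' : ∀ e ∈ E1.filter (fun e => φ e = L), w (mis (lp e.2) XU) = w L.2.1 := by
      intro e he
      rw [Finset.mem_filter] at he
      rw [← he.2]
    rw [Finset.sum_congr rfl hw', Finset.sum_const, nsmul_eq_mul]
    have hcard : (E1.filter (fun e => φ e = L)).card ≤ N L.2.1 := by
      rcases (E1.filter (fun e => φ e = L)).eq_empty_or_nonempty with h0 | ⟨e0, he0⟩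
      · rw [h0]; simp
      · rw [Finset.mem_filter] at he0
        have he0' := he0.1
        rw [hE1, Finset.mem_filter, mem_EE] at he0'
        have n0 := nf c F.sU he0'.1.2.2
        have hlt : (M.pts (pre (mis (lp e0.2) XU) (lp e0.2)) XU).card <
            N (pre (mis (lp e0.2) XU) (lp e0.2)).1 :=
          F.pU.pts_lt (fun z hz => c.cP.sub (Finset.mem_coe.2 (n0.letP z hz))) n0.nXU
        have hlev : (pre (mis (lp e0.2) XU) (lp e0.2)).1 = L.2.1 := by
          rw [← he0.2]; rfl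
        rw [hlev] at hlt
        refine le_trans ?_ hlt.le
        refine Finset.card_le_card_of_injOn Prod.snd ?_ ?_
        · intro e he
          rw [Finset.mem_coe, Finset.mem_filter] at he
          have he' := he.1
          rw [hE1, Finset.mem_filter, mem_EE] at he'
          have n := nf c F.sU he'.1.2.2
          rw [Finset.mem_coe, Str.mem_pts]
          refine ⟨he'.1.2.1, ?_⟩
          have h5 : φ e = φ e0 := he.2.trans he0.2.symm
          rw [hφ] at h5
          simp only [Prod.mk.injEq] at h5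
          have h6 : (pre (mis (lp e.2) XU) (lp e.2)).2 = (pre (mis (lp e0.2) XU) (lp e0.2)).2 :=
            map_inj_list hτ.inj _ _ n.letP n0.letP h5.2.2
          have h7 : pre (mis (lp e.2) XU) (lp e.2) = pre (mis (lp e0.2) XU) (lp e0.2) :=
            Prod.ext h5.2.1 h6
          rw [← h7]
          exact n.onp
        · intro e he e' he' hee
          rw [Finset.mem_coe, Finset.mem_filter] at he he'
          have h5 : φ e = φ e' := he.2.trans he'.2.symm
          rw [hφ] at h5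
          simp only [Prod.mk.injEq] at h5
          exact Prod.ext h5.1 hee
    have h8 : ((E1.filter (fun e => φ e = L)).card : ℝ) * w L.2.1 ≤ (N L.2.1 : ℝ) * w L.2.1 :=
      mul_le_mul_of_nonneg_right (by exact_mod_cast hcard) (w_pos _).le
    have h9 := Nw_le L.2.1
    linarith
  rw [← Finset.sum_fiberwise_of_maps_to hmaps, Finset.mul_sum, Finset.sum_div]
  exact Finset.sum_le_sum hfib

/-- second charge -/
theorem charge2 (c : Cfg M Ω b0 h T U Q B A P W D σ τ lp) {XD XU X1 : Finset ℕ}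
    (F : Fit M Ω U Q D τ XD XU) (hX1 : ∀ x, x ∈ X1 ↔ x ∈ P ∧ τ x ∈ XD) :
    2 * ∑ e ∈ (EE M T U B A σ XD XU).filter
        (fun e => ¬ Bd τ lp XD XU e), w (mis (lp e.2) XU) ≤
      (∑ p ∈ M.nic XU X1, a p.2.1) / 8 := by
  set E2 := (EE M T U B A σ XD XU).filter
        (fun e => ¬ Bd τ lp XD XU e) with hE2
  set φ : ℕ × ℕ → ℕ × (ℕ × List ℕ) := fun e => (e.2, lp e.2) with hφ
  have key : ∀ e ∈ E2, mis (lp e.2) XU = (lp e.2).1 ∧ h < (lp e.2).1 ∧ M.On e.2 (lp e.2) ∧
      (∀ z ∈ (lp e.2).2, z ∈ X1) ∧ (∃ z ∈ (lp e.2).2, z ∉ XU) ∧ e.2 ∈ XU ∧ e.2 ∉ P ∧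
      ∃ t ∈ T, ∃ x ∈ A, σ t x = e.1 := by
    intro e he
    rw [hE2, Finset.mem_filter, mem_EE] at he
    obtain ⟨⟨h1, h2, h3⟩, h4⟩ := he
    have h4 : ∀ z ∈ (pre (mis (lp e.2) XU) (lp e.2)).2, τ z ∈ XD := fun z hz => by
      by_contra hn
      exact h4 ⟨z, hz, hn⟩
    have n := nf c F.sU h3
    have hi : mis (lp e.2) XU = (lp e.2).1 := by
      refine le_antisymm n.le (not_lt.1 fun hlt => ?_)
      obtain ⟨z, hz, hzU⟩ := n.nXU
      exact hzU ((F.fit z (n.letQ hlt z hz)).2 (h4 z hz))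
    have hm : pre (mis (lp e.2) XU) (lp e.2) = lp e.2 := by
      rw [hi]; exact pre_self n.len
    refine ⟨hi, n.hh, ?_, ?_, ?_, h2, n.pP, n.ex⟩
    · have := n.onp
      rwa [hm] at this
    · intro z hz
      rw [hX1]
      have h5 := n.letP z
      rw [hm] at h5 h4
      exact ⟨h5 hz, h4 z hz⟩
    · have := n.nXU
      rwa [hm] at this
  have hmaps : ∀ e ∈ E2, φ e ∈ M.nic XU X1 := by
    intro e he
    obtain ⟨h1, h2, h3, h4, h5, h6, h7, h8⟩ := key e he
    unfold Str.nic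
    rw [Finset.mem_filter, Str.mem_ic, Str.mem_ic, Str.mem_ic]
    refine ⟨⟨Finset.mem_union_left _ h6, h3.isLn fun z hz => Finset.mem_union_right _
      (h4 z hz), h3⟩, ?_, ?_⟩
    · rintro ⟨_, h9, _⟩
      obtain ⟨z, hz, hzU⟩ := h5
      exact hzU ((mem_lin.1 h9).2.2 _ hz)
    · rintro ⟨h9, _⟩
      exact h7 ((hX1 _).1 h9).1
  have hfib : ∀ L ∈ M.nic XU X1, 2 * ∑ e ∈ E2.filter (fun e => φ e = L), w (mis (lp e.2) XU) ≤
      a L.2.1 / 8 := by
    intro L hL
    rcases (E2.filter (fun e => φ e = L)).eq_empty_or_nonempty with h0 | ⟨e0, he0⟩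
    · rw [h0]
      have := a_pos L.2.1
      simp; linarith
    rw [Finset.mem_filter] at he0
    have hlev : h < L.2.1 := by
      have := (key e0 he0.1).2.1
      rw [← he0.2]
      exact this
    have hw' : ∀ e ∈ E2.filter (fun e => φ e = L), w (mis (lp e.2) XU) = w L.2.1 := by
      intro e he
      rw [Finset.mem_filter] at he
      rw [(key e he.1).1, ← he.2]
    rw [Finset.sum_congr rfl hw', Finset.sum_const, nsmul_eq_mul]
    have hcard : (E2.filter (fun e => φ e = L)).card ≤ T.card * b0 := by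
      have h1 : (E2.filter (fun e => φ e = L)).card ≤
          ((T ×ˢ A).image fun x => σ x.1 x.2).card := by
        refine Finset.card_le_card_of_injOn Prod.fst ?_ ?_
        · intro e he
          rw [Finset.mem_coe, Finset.mem_filter] at he
          obtain ⟨t, ht, x, hx, hxe⟩ := (key e he.1).2.2.2.2.2.2.2
          rw [Finset.mem_coe, Finset.mem_image]
          exact ⟨(t, x), Finset.mem_product.2 ⟨ht, hx⟩, hxe⟩
        · intro e he e' he' hee
          rw [Finset.mem_coe, Finset.mem_filter] at he he'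
          have h5 : φ e = φ e' := he.2.trans he'.2.symm
          rw [hφ] at h5
          simp only [Prod.mk.injEq] at h5
          exact Prod.ext hee h5.1
      refine h1.trans (Finset.card_image_le.trans ?_)
      rw [Finset.card_product]
      exact Nat.mul_le_mul_left _ c.card
    have h8 : ((E2.filter (fun e => φ e = L)).card : ℝ) * w L.2.1 ≤
        ((T.card : ℝ) * b0) * w L.2.1 :=
      mul_le_mul_of_nonneg_right (by exact_mod_cast hcard) (w_pos _).le
    have h9 := c.hw L.2.1 hlev.le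
    linarith
  rw [← Finset.sum_fiberwise_of_maps_to hmaps, Finset.mul_sum, Finset.sum_div]
  exact Finset.sum_le_sum hfib

end

end Run7.h416.LW.Be

namespace Run7.h416.LW
open Classical Run7.h520.LW Be

theorem BETA (E : S_EMB) (K1 : S_SMK) (HU : S_HULL) (RE : S_REL) : S_BETA := by
  intro M Ω b0 h T U Q B A P W D σ τ lp c XD XU F x hx
  have hτ := embτ E c
  obtain ⟨hr1, hr2⟩ := RE c.rich.amb F.pD c.cP
  have hnn : ∀ (X Y : Finset ℕ), 0 ≤ ∑ p ∈ M.nic X Y, a p.2.1 := fun X Y =>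
    Finset.sum_nonneg fun p _ => (a_pos _).le
  have hs2 := hnn XD P
  refine ⟨?_, by linarith, fun hn => by have := hr2 hn; linarith⟩
  -- the set `X1`
  set X1 := P.filter fun x => τ x ∈ XD with hX1
  have hmem : ∀ x, x ∈ X1 ↔ x ∈ P ∧ τ x ∈ XD := fun x => by rw [hX1, Finset.mem_filter]
  have hX1P : X1 ⊆ P := fun x hx => ((hmem x).1 hx).1
  have him : X1.image τ = XD ∩ P := by
    ext y
    rw [Finset.mem_image, Finset.mem_inter]
    constructor
    · rintro ⟨z, hz, rfl⟩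
      refine ⟨((hmem z).1 hz).2, ?_⟩
      rw [← c.τP]
      exact Finset.mem_image_of_mem _ (hX1P hz)
    · rintro ⟨h1, h2⟩
      rw [← c.τP, Finset.mem_image] at h2
      obtain ⟨z, hz, rfl⟩ := h2
      exact ⟨z, (hmem z).2 ⟨hz, h1⟩, rfl⟩
  have hpc : M.PC X1 Ω := by
    have h1 : M.PC (XD ∩ P) ↑P := (F.pD.inter c.cP.1).mono c.cP.sub
      (Finset.coe_subset.2 Finset.inter_subset_right)
    have h2 : M.PC (X1.image τ) ↑(P.image τ) := by rw [him, c.τP]; exact h1
    exact ((E.pc hτ hX1P).1 h2).trans c.cP.1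
  have hdl : M.dl X1 = M.dl (XD ∩ P) := by
    rw [← him]; exact (E.dl hτ hX1P).symm
  have hcard1 : X1.card = (XD ∩ P).card := by
    rw [← him, Finset.card_image_of_injOn]
    intro z hz z' hz' h
    exact hτ.inj z (hX1P (Finset.mem_coe.1 hz)) z' (hX1P (Finset.mem_coe.1 hz')) h
  have hint : XU ∩ X1 = XU ∩ Q := by
    ext z
    rw [Finset.mem_inter, Finset.mem_inter, hmem]
    constructor
    · rintro ⟨h1, h2, h3⟩
      refine ⟨h1, ?_⟩
      rw [← c.UP]
      exact Finset.mem_inter.2 ⟨F.sU h1, h2⟩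
    · rintro ⟨h1, h2⟩
      exact ⟨h1, QP c h2, (F.fit z h2).1 h1⟩
  -- submodularity
  have hsm := K1 (Z := Ω) (A := XU) (B := X1) (G := M) ∅ c.rich.k.c1 F.pU hpc
    (Finset.empty_subset _) (fun e he => absurd he (Finset.notMem_empty _))
    (fun p l _ => by simp)
  have hsm0 : 0 ≤ ∑ e ∈ M.ned XU X1 \ ∅, (w 0 - ∑ j ∈ M.lv XU X1 e, q (j + 1)) :=
    Finset.sum_nonneg fun e _ => by
      have := w_levels' (M.lv XU X1 e)
      linarith
  rw [Finset.sum_empty, hint, hdl] at hsm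
  -- the hull
  have hsub : (↑(XU ∪ X1) : Set ℕ) ⊆ Ω := by
    intro z hz
    rcases Finset.mem_union.1 (Finset.mem_coe.1 hz) with h1 | h1
    · exact F.pU.sub (Finset.mem_coe.2 h1)
    · exact hpc.sub (Finset.mem_coe.2 h1)
  obtain ⟨C, hC1, hC2⟩ := c.rich.fin _ hsub
  obtain ⟨X, hX, hX', _⟩ := HU.hull (Z := Ω) (G := M) c.rich.k.c1 hC2.1 hC1 (by
    intro l hl hn
    obtain ⟨z, hz, hzn⟩ := hn
    rw [Finset.mem_union, not_or] at hzn
    have h1 := F.pU.pts_lt (l := l) hl ⟨z, hz, hzn.1⟩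
    have h2 := hpc.pts_lt (l := l) hl ⟨z, hz, hzn.2⟩
    rw [Str.pts_union]
    have h3 := Finset.card_union_le (M.pts l XU) (M.pts l X1)
    omega)
  have hXle : M.dl X ≤ M.dl (XU ∪ X1) := by
    rcases hX' with rfl | h1
    · exact le_rfl
    · exact h1.le
  have hf1 : f (XU ∪ X1).card ≤ M.dl (XU ∪ X1) :=
    (f_mono (Finset.card_le_card hX.2.1)).trans ((c.rich.k.c2 X hX.1).trans hXle)
  have hcx : (XU ∪ X1).card = x := by
    have h1 := Finset.card_union_add_card_inter XU X1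
    rw [hint, hcard1] at h1
    omega
  rw [hcx] at hf1
  -- the cost
  have h1 := charge1 E c F
  have h2 := charge2 c F hmem
  have hcost : cost M T U B A σ lp XD XU ≤
      (∑ p ∈ M.nic XD P, a p.2.1) / 8 + (∑ p ∈ M.nic XU X1, a p.2.1) / 8 := by
    have h3 : cost M T U B A σ lp XD XU =
        2 * ∑ e ∈ EE M T U B A σ XD XU, w (mis (lp e.2) XU) := rfl
    rw [h3, ← Finset.sum_filter_add_sum_filter_not (EE M T U B A σ XD XU)
      (fun e => Bd τ lp XD XU e)]
    linarith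
  have hs1 := hnn XU X1
  linarith

end Run7.h416.LW
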