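import Pool.Agent.Run7.h416.LW.HULL

/-!
Piece C1R.
-/

set_option autoImplicit false
set_option linter.all false

namespace Run7.h416.LW
open Classical Finset Run7.h520.LW

/-- only the letters matter for `nl` -/
theorem nl_congr {V : Type} {G : Str V} {A B : Finset V} (hBA : B ⊆ A)
    (h : ∀ x ∈ A, ¬ G.pt x → x ∈ B) (j : ℕ) (p : V) : G.nl j p A = G.nl j p B := by
  apply le_antisymm _ (Str.nl_mono hBA)
  unfold Str.nl
  apply Finset.card_le_card
  intro l hl
  rw [Finset.mem_filter] at hl ⊢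
  refine ⟨?_, hl.2⟩
  have h1 := mem_lin.1 hl.1
  rw [mem_lin]
  exact ⟨h1.1, h1.2.1, fun x hx => h x (h1.2.2 x hx) (hl.2.2.ne hx)⟩

theorem term_ge (i : ℕ) : q i / 2 ≤ a i - (N i : ℝ) * q (i + 1) := by
  have e1 := N_small i
  have e2 := a_ge i
  have e3 := q_pos i
  have e4 : (N i : ℝ) * q (i + 1) ≤ q i * (1 / 2 ^ 30) := by
    have : (2 : ℝ) ^ 30 * (1 / 2 ^ 30) = 1 := by norm_num
    nlinarith
  nlinarith

/-- the case of new letters -/
theorem c1r_letters {V : Type} [DecidableEq V] {G : Str V} {Z : Set V} {C : Finset V} (hCa : S_CALC)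
    (hHu : S_HULL) (j : ℕ) (S Y : Finset V) (hZ : G.Amb Z) (hC : G.Cl C Z) (hS : ↑S ⊆ Z)
    (hY : ↑Y ⊆ Z) (hYC : Disjoint Y C) (hnopt : ∀ x ∈ S, ¬ G.pt x) (hd : Disjoint C S) :
    ∑ p ∈ Y, (2 * (G.nl j p (C ∪ S) : ℤ) - 3) +
      ∑ p ∈ C, 2 * ((G.nl j p (C ∪ S) : ℤ) - G.nl j p C) ≤ K j * S.card := by
  set H := C ∪ S with hH
  have hCH : C ⊆ H := Finset.subset_union_left
  have hHZ : (↑H : Set V) ⊆ Z := by
    rw [hH, Finset.coe_union]
    exact Set.union_subset hC.sub hS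
  obtain ⟨C', hHC', hC'⟩ := hZ.fin H hHZ
  have hpts : ∀ l : ℕ × List V, G.pts l H = G.pts l C := by
    intro l
    ext x
    rw [Str.mem_pts, Str.mem_pts]
    constructor
    · rintro ⟨h1, h2⟩
      refine ⟨?_, h2⟩
      rcases Finset.mem_union.1 h1 with h | h
      · exact h
      · exact absurd h2.1 (hnopt x h)
    · rintro ⟨h1, h2⟩
      exact ⟨hCH h1, h2⟩
  obtain ⟨X, hX1, _, hX3, _⟩ := hHu.hull (H := H) (C := C') hZ.c1 hC'.1 hHC' (by
    intro l hl hx
    rw [hpts]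
    have h1 : (G.pts l C).card < N l.1 := by
      obtain ⟨x, hx, hxH⟩ := hx
      exact hC.1.pts_lt hl ⟨x, hx, fun h => hxH (hCH h)⟩
    omega)
  set Y2 := Y.filter (fun p => 2 ≤ G.nl j p H) with hY2
  have h1 := hX3 j Y2 ((Finset.coe_subset.2 (Finset.filter_subset _ _)).trans hY) (by
    rw [Finset.disjoint_left]
    intro p hp hpH
    rw [hY2, Finset.mem_filter] at hp
    rcases Finset.mem_union.1 hpH with h | h
    · exact Finset.disjoint_left.1 hYC hp.1 h
    · obtain ⟨l, _, _, hon⟩ := Str.nl_pos_iff.1 (by omega : 0 < G.nl j p H)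
      exact hnopt p h hon.1) (fun p hp => by rw [hY2, Finset.mem_filter] at hp; exact hp.2)
  have h2 : G.dl C ≤ G.dl X := hC.le hX1.1 (hCH.trans hX1.2.1)
  have h3 := dl_letters (G := G) hCa hnopt hd (fun i => N i) (by
    intro l hl hlC
    have hlZ : ∀ x ∈ l.2, x ∈ Z := fun x hx => hHZ ((mem_lin.1 hl).2.2 x hx)
    have : (G.pts l C).card < N l.1 := by
      apply hC.1.pts_lt hlZ
      by_contra hcon
      push Not at hcon
      exact hlC (mem_lin.2 ⟨(mem_lin.1 hl).1, (mem_lin.1 hl).2.1, hcon⟩)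
    exact_mod_cast this.le)
  rw [← hH] at h3
  -- the new incidences
  have h4 : q j / 2 * ∑ p ∈ C, ((G.nl j p H : ℝ) - G.nl j p C) ≤
      ∑ p ∈ G.nic C S, (a p.2.1 - (N p.2.1 : ℝ) * q (p.2.1 + 1)) := by
    set Q := (C ×ˢ (lin H \ lin C)).filter (fun e => e.2.1 = j ∧ G.On e.1 e.2) with hQ
    have e1 : ∑ p ∈ C, ((G.nl j p H : ℝ) - G.nl j p C) = (Q.card : ℝ) := by
      rw [hQ, Finset.card_filter, Finset.sum_product]
      push_cast
      apply Finset.sum_congr rfl
      intro p _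
      have e2 : G.nl j p H = G.nl j p C + ((lin H \ lin C).filter (fun l => l.1 = j ∧ G.On p l)).card := by
        unfold Str.nl
        rw [← Finset.card_union_of_disjoint]
        · rw [← Finset.filter_union, Finset.union_sdiff_of_subset (lin_mono hCH)]
        · exact Finset.disjoint_filter_filter Finset.disjoint_sdiff
      rw [e2, Finset.card_filter]
      push_cast
      ring
    rw [e1]
    have hsub : Q ⊆ G.nic C S := by
      rintro ⟨p, l⟩ he
      rw [hQ, Finset.mem_filter, Finset.mem_product, Finset.mem_sdiff] at he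
      rw [mem_nic, Str.mem_ic, Str.mem_ic, Str.mem_ic]
      exact ⟨⟨hCH he.1.1, he.1.2.1, he.2.2⟩, fun h => he.1.2.2 h.2.1,
        fun h => hnopt _ h.1 he.2.2.1⟩
    calc q j / 2 * (Q.card : ℝ) = ∑ e ∈ Q, q j / 2 := by
          rw [Finset.sum_const, nsmul_eq_mul]
          ring
      _ ≤ ∑ e ∈ Q, (a e.2.1 - (N e.2.1 : ℝ) * q (e.2.1 + 1)) := by
          apply Finset.sum_le_sum
          intro e he
          rw [hQ, Finset.mem_filter] at he
          rw [he.2.1]
          exact term_ge j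
      _ ≤ _ := by
          apply Finset.sum_le_sum_of_subset_of_nonneg hsub
          intro e _ _
          exact le_trans (by have := q_pos e.2.1; linarith) (term_ge e.2.1)
  have h5 : wt * (S.card : ℝ) ≤ S.card := by
    have := mul_le_mul_of_nonneg_right wt_le (Nat.cast_nonneg (α := ℝ) S.card)
    linarith
  -- collect
  have h6 : q j / 4 * ∑ p ∈ Y2, (2 * (G.nl j p H : ℝ) - 3) +
      q j / 2 * ∑ p ∈ C, ((G.nl j p H : ℝ) - G.nl j p C) ≤ S.card := by
    rw [Finset.mul_sum]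
    linarith
  have h7 : ∑ p ∈ Y2, (2 * (G.nl j p H : ℝ) - 3) +
      ∑ p ∈ C, 2 * ((G.nl j p H : ℝ) - G.nl j p C) ≤ K j * S.card := by
    have hK := K_mul j
    have hK0 : (0 : ℝ) ≤ K j := Nat.cast_nonneg _
    have h8 := mul_le_mul_of_nonneg_left h6 hK0
    have e1 : (K j : ℝ) * (q j / 4 * ∑ p ∈ Y2, (2 * (G.nl j p H : ℝ) - 3) +
        q j / 2 * ∑ p ∈ C, ((G.nl j p H : ℝ) - G.nl j p C)) =
        (K j * q j) / 4 * (∑ p ∈ Y2, (2 * (G.nl j p H : ℝ) - 3) +
          2 * ∑ p ∈ C, ((G.nl j p H : ℝ) - G.nl j p C)) := by ring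
    rw [e1, hK] at h8
    rw [← Finset.mul_sum]
    linarith
  have h8 : ∑ p ∈ Y2, (2 * (G.nl j p H : ℤ) - 3) +
      ∑ p ∈ C, 2 * ((G.nl j p H : ℤ) - G.nl j p C) ≤ K j * S.card := by
    exact_mod_cast h7
  have h9 : ∑ p ∈ Y, (2 * (G.nl j p H : ℤ) - 3) ≤ ∑ p ∈ Y2, (2 * (G.nl j p H : ℤ) - 3) := by
    rw [hY2, Finset.sum_filter]
    apply Finset.sum_le_sum
    intro p _
    split_ifs with h
    · exact le_rfl
    · have : (G.nl j p H : ℤ) ≤ 1 := by exact_mod_cast (by omega : G.nl j p H ≤ 1)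
      linarith
  linarith

theorem C1R : S_CALC → S_HULL → S_C1R := by
  intro hCa hHu V _ G Z C j S Y hZ hC hS hY hYC
  set S0 := (S \ C).filter (fun x => ¬ G.pt x) with hS0
  have hS0S : S0 ⊆ S \ C := Finset.filter_subset _ _
  have h1 := c1r_letters hCa hHu j S0 Y hZ hC
    ((Finset.coe_subset.2 (hS0S.trans Finset.sdiff_subset)).trans hS) hY hYC
    (fun x hx => by rw [hS0, Finset.mem_filter] at hx; exact hx.2)
    (Finset.disjoint_left.2 (fun x hx hx' => (Finset.mem_sdiff.1 (hS0S hx')).2 hx))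
  have h2 : ∀ p, G.nl j p (C ∪ S) = G.nl j p (C ∪ S0) := by
    intro p
    apply nl_congr
    · exact Finset.union_subset_union (Finset.Subset.refl _) (hS0S.trans Finset.sdiff_subset)
    · intro x hx hxp
      by_cases hxC : x ∈ C
      · exact Finset.mem_union_left _ hxC
      · apply Finset.mem_union_right
        rw [hS0, Finset.mem_filter, Finset.mem_sdiff]
        exact ⟨⟨(Finset.mem_union.1 hx).resolve_left hxC, hxC⟩, hxp⟩
  have h3 : (K j : ℤ) * S0.card ≤ K j * (S \ C).card := by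
    have := Finset.card_le_card hS0S
    exact_mod_cast Nat.mul_le_mul_left (K j) this
  simp only [h2]
  exact h1.trans h3

end Run7.h416.LW
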