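import Pool.Agent.Run7.h416.LW.Key

/-!
Piece HULL.
-/

set_option autoImplicit false
set_option linter.all false

namespace Run7.h416.LW
open Classical Finset Run7.h520.LW

theorem insert_wt_le {V : Type} [DecidableEq V] {G : Str V} (hC : S_CALC) {Z : Set V}
    {C : Finset V} {v : V} (hC1 : G.C1 Z) (hCZ : ↑C ⊆ Z) (hv : v ∉ C) (h1 : ∀ j, G.nl j v C ≤ 1)
    (h2 : ∀ l : ℕ × List V, v ∈ l.2 → (∀ x ∈ l.2, x ∈ insert v C) → (G.pts l C).card ≤ N l.1) :
    G.dl (insert v C) ≤ G.dl C + wt := by
  by_cases hpt : G.pt v
  · have h3 := dl_point hC hv hpt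
    have h4 : 0 ≤ ∑ l ∈ (lin C).filter (fun l => G.On v l), a l.1 :=
      Finset.sum_nonneg (fun _ _ => (a_pos _).le)
    have h5 : ∑ x ∈ C.filter (fun x => G.R v x),
        (∑ l ∈ (lin C).filter (fun l => G.On v l ∧ G.On x l), q (l.1 + 1) - w 0) ≤ 0 := by
      apply Finset.sum_nonpos
      intro x _
      have h6 := edge_cost (G := G) (A := C) (p := v) (x := x)
      refine h6.trans (le_of_eq ?_)
      apply Finset.sum_eq_zero
      intro i _
      have h7 := nn_le (G := G) i v x C
      have h8 := h1 i
      have : nn G i v x C - 1 = 0 := by omega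
      rw [this]
      simp
    linarith
  · have hT : ∀ x ∈ ({v} : Finset V), ¬ G.pt x := by
      intro x hx
      rw [Finset.mem_singleton] at hx
      rw [hx]
      exact hpt
    have hd : Disjoint C ({v} : Finset V) := by
      rw [Finset.disjoint_singleton_right]
      exact hv
    have hCv : C ∪ {v} = insert v C := by
      rw [Finset.union_comm, ← Finset.insert_eq]
    have h3 := dl_letters (G := G) hC hT hd (fun i => N i) (by
      intro l hl hlC
      rw [hCv] at hl
      have h4 : v ∈ l.2 := by
        by_contra hcon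
        apply hlC
        rw [mem_lin] at hl ⊢
        refine ⟨hl.1, hl.2.1, fun x hx => ?_⟩
        rcases Finset.mem_insert.1 (hl.2.2 x hx) with h | h
        · exact absurd (h ▸ hx) hcon
        · exact h
      have := h2 l h4 (mem_lin.1 hl).2.2
      exact_mod_cast this)
    rw [hCv] at h3
    have h4 : 0 ≤ ∑ p ∈ G.nic C {v}, (a p.2.1 - (N p.2.1 : ℝ) * q (p.2.1 + 1)) := by
      apply Finset.sum_nonneg
      intro e _
      have e1 := N_small e.2.1
      have e2 := a_ge e.2.1
      have e3 := q_pos e.2.1
      have e4 : (N e.2.1 : ℝ) * q (e.2.1 + 1) ≤ q e.2.1 * (1 / 2 ^ 30) := by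
        have : (2 : ℝ) ^ 30 * (1 / 2 ^ 30) = 1 := by norm_num
        nlinarith
      nlinarith
    simp only [Finset.card_singleton, Nat.cast_one, mul_one] at h3
    linarith

/-- the conclusion of `hull` -/
def HullC {V : Type} (G : Str V) (Z : Set V) (H : Finset V) : Prop :=
  ∃ X, G.IsP H X Z ∧ (X = H ∨ G.dl X < G.dl H) ∧
      (∀ (j : ℕ) (Y : Finset V), ↑Y ⊆ Z → Disjoint Y H → (∀ p ∈ Y, 2 ≤ G.nl j p H) →
        G.dl X + ∑ p ∈ Y, q j / 4 * (2 * (G.nl j p H : ℝ) - 3) ≤ G.dl H) ∧
      ((∀ x ∈ X, x ∉ H → G.pt x) ∨ G.dl X + 1 / 2 ≤ G.dl H)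

theorem nl_term_mono {V : Type} {G : Str V} {H H1 : Finset V} (hH : H ⊆ H1) (j : ℕ) (Y : Finset V) :
    ∑ p ∈ Y, q j / 4 * (2 * (G.nl j p H : ℝ) - 3) ≤ ∑ p ∈ Y, q j / 4 * (2 * (G.nl j p H1 : ℝ) - 3) := by
  apply Finset.sum_le_sum
  intro p _
  have h1 : G.nl j p H ≤ G.nl j p H1 := Str.nl_mono hH
  have h2 : (G.nl j p H : ℝ) ≤ G.nl j p H1 := by exact_mod_cast h1
  have h3 := q_pos j
  have : 2 * (G.nl j p H : ℝ) - 3 ≤ 2 * (G.nl j p H1 : ℝ) - 3 := by linarith
  exact mul_le_mul_of_nonneg_left this (by linarith)

theorem hull_aux {V : Type} [DecidableEq V] {G : Str V} {Z : Set V} {C : Finset V} (hC : S_CALC)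
    (hC1 : G.C1 Z) (hPC : G.PC C Z) : ∀ (n : ℕ) (H : Finset V), (C \ H).card ≤ n → H ⊆ C →
    (∀ l : ℕ × List V, (∀ x ∈ l.2, x ∈ Z) → (∃ x ∈ l.2, x ∉ H) →
      (G.pts l H).card ≤ 2 * N l.1) → HullC G Z H := by
  intro n
  induction n with
  | zero =>
    intro H hn hHC _
    have hHC' : H = C := by
      apply Finset.Subset.antisymm hHC
      rw [← Finset.sdiff_eq_empty_iff_subset, ← Finset.card_eq_zero]
      omega
    subst hHC'
    refine ⟨H, ⟨hPC, Finset.Subset.refl _, fun H' _ h => h⟩, Or.inl rfl, ?_, Or.inl ?_⟩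
    · intro j Y hY hYd hY2
      have : Y = ∅ := by
        rw [Finset.eq_empty_iff_forall_notMem]
        intro p hp
        have h1 := hPC.g2 p (hY (Finset.mem_coe.2 hp)) (Finset.disjoint_left.1 hYd hp) j
        have h2 := hY2 p hp
        omega
      rw [this]
      simp
    · intro x hx hx'
      exact absurd hx hx'
  | succ n ih =>
    intro H hn hHC hinv
    have hHZ : (↑H : Set V) ⊆ Z := (Finset.coe_subset.2 hHC).trans hPC.sub
    by_cases hL : ∃ l : ℕ × List V, (∀ x ∈ l.2, x ∈ Z) ∧ N l.1 ≤ (G.pts l H).card ∧ ∃ x ∈ l.2, x ∉ H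
    · -- step L
      obtain ⟨l, hl, hN, hx⟩ := hL
      obtain ⟨hnopt, hdl⟩ := key_L hC hHZ hinv hl hN hx
      have hlC : ∀ x ∈ l.2, x ∈ C :=
        hPC.g1 l hl (hN.trans (Finset.card_le_card (Str.pts_mono hHC)))
      set H1 := H ∪ l.2.toFinset with hH1
      have hHH1 : H ⊆ H1 := Finset.subset_union_left
      have hH1C : H1 ⊆ C := Finset.union_subset hHC (fun x hx => hlC x (List.mem_toFinset.1 hx))
      have hpts : ∀ l', G.pts l' H1 = G.pts l' H := by
        intro l'
        ext x
        rw [Str.mem_pts, Str.mem_pts]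
        constructor
        · rintro ⟨h1, h2⟩
          refine ⟨?_, h2⟩
          rcases Finset.mem_union.1 h1 with h | h
          · exact h
          · exact absurd h2.1 (hnopt x h)
        · rintro ⟨h1, h2⟩
          exact ⟨hHH1 h1, h2⟩
      obtain ⟨x0, hx0, hx0H⟩ := hx
      have hcard : (C \ H1).card ≤ n := by
        have : (C \ H1).card < (C \ H).card := by
          apply Finset.card_lt_card
          rw [Finset.ssubset_iff_of_subset (Finset.sdiff_subset_sdiff (Finset.Subset.refl _) hHH1)]
          refine ⟨x0, Finset.mem_sdiff.2 ⟨hlC x0 hx0, hx0H⟩, fun h => ?_⟩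
          exact (Finset.mem_sdiff.1 h).2 (Finset.mem_union_right _ (List.mem_toFinset.2 hx0))
        omega
      obtain ⟨X, hX1, hX2, hX3, hX4⟩ := ih H1 hcard hH1C (by
        intro l' hl' hx'
        rw [hpts]
        apply hinv l' hl'
        obtain ⟨x, hx, hxH⟩ := hx'
        exact ⟨x, hx, fun h => hxH (hHH1 h)⟩)
      have hXH1 : G.dl X ≤ G.dl H1 := by
        rcases hX2 with h | h
        · rw [h]
        · exact h.le
      refine ⟨X, ⟨hX1.1, hHH1.trans hX1.2.1, ?_⟩, Or.inr (by linarith), ?_, Or.inr (by linarith)⟩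
      · intro H' hH' hHH'
        apply hX1.2.2 H' hH'
        apply Finset.union_subset hHH'
        intro x hx
        exact hH'.g1 l hl (hN.trans (Finset.card_le_card (Str.pts_mono hHH'))) x
          (List.mem_toFinset.1 hx)
      · intro j Y hY hYd hY2
        have hYd1 : Disjoint Y H1 := by
          rw [Finset.disjoint_left] at hYd ⊢
          intro p hp hp1
          rcases Finset.mem_union.1 hp1 with h | h
          · exact hYd hp h
          · obtain ⟨l', _, _, hon⟩ := Str.nl_pos_iff.1 (by have := hY2 p hp; omega : 0 < G.nl j p H)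
            exact hnopt p h hon.1
        have h1 := hX3 j Y hY hYd1 (fun p hp => (hY2 p hp).trans (Str.nl_mono hHH1))
        have h2 := nl_term_mono (G := G) hHH1 j Y
        linarith
    · push Not at hL
      by_cases hP : ∃ p ∈ Z, p ∉ H ∧ ∃ j, 2 ≤ G.nl j p H
      · -- step P
        obtain ⟨p, hpZ, hpH, j0, hj0⟩ := hP
        have hpt : G.pt p := by
          obtain ⟨l, _, _, hl⟩ := Str.nl_pos_iff.1 (by omega : 0 < G.nl j0 p H)
          exact hl.1
        have hpC : p ∈ C := by
          by_contra hcon
          have h1 := hPC.g2 p hpZ hcon j0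
          have h2 : G.nl j0 p H ≤ G.nl j0 p C := Str.nl_mono hHC
          omega
        set H1 := insert p H with hH1
        have hHH1 : H ⊆ H1 := Finset.subset_insert _ _
        have hH1C : H1 ⊆ C := Finset.insert_subset hpC hHC
        have hcard : (C \ H1).card ≤ n := by
          have : (C \ H1).card < (C \ H).card := by
            apply Finset.card_lt_card
            rw [Finset.ssubset_iff_of_subset (Finset.sdiff_subset_sdiff (Finset.Subset.refl _) hHH1)]
            refine ⟨p, Finset.mem_sdiff.2 ⟨hpC, hpH⟩, fun h => ?_⟩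
            exact (Finset.mem_sdiff.1 h).2 (Finset.mem_insert_self _ _)
          omega
        obtain ⟨X, hX1, hX2, hX3, hX4⟩ := ih H1 hcard hH1C (by
          intro l' hl' hx'
          obtain ⟨x, hx, hxH⟩ := hx'
          have h1 : (G.pts l' H).card < N l'.1 := by
            by_contra hcon
            have := hL l' hl' (not_lt.1 hcon) x hx
            exact hxH (hHH1 this)
          have h2 : (G.pts l' H1).card ≤ (G.pts l' H).card + 1 := by
            have : G.pts l' H1 ⊆ insert p (G.pts l' H) := by
              intro y hy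
              rw [Str.mem_pts] at hy
              rw [Finset.mem_insert, Str.mem_pts]
              rcases Finset.mem_insert.1 hy.1 with h | h
              · exact Or.inl h
              · exact Or.inr ⟨h, hy.2⟩
            exact (Finset.card_le_card this).trans (Finset.card_insert_le _ _)
          have h3 := N_pos l'.1
          omega)
        have hkey := fun j hj => key_P (j := j) hC hC1 hHZ hpH hj
        have hlt : G.dl H1 < G.dl H := by
          have h1 := hkey j0 hj0
          have h2 : (2 : ℝ) ≤ G.nl j0 p H := by exact_mod_cast hj0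
          have h3 := q_pos j0
          have h4 : 0 < q j0 / 4 * (2 * (G.nl j0 p H : ℝ) - 3) := by
            apply mul_pos <;> linarith
          linarith
        have hXH1 : G.dl X ≤ G.dl H1 := by
          rcases hX2 with h | h
          · rw [h]
          · exact h.le
        refine ⟨X, ⟨hX1.1, hHH1.trans hX1.2.1, ?_⟩, Or.inr (by linarith), ?_, ?_⟩
        · intro H' hH' hHH'
          apply hX1.2.2 H' hH'
          apply Finset.insert_subset _ hHH'
          by_contra hcon
          have h1 := hH'.g2 p hpZ hcon j0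
          have h2 : G.nl j0 p H ≤ G.nl j0 p H' := Str.nl_mono hHH'
          omega
        · intro j Y hY hYd hY2
          by_cases hpY : p ∈ Y
          · have e1 : Y = insert p (Y.erase p) := (Finset.insert_erase hpY).symm
            have e2 : p ∉ Y.erase p := Finset.notMem_erase _ _
            rw [e1, Finset.sum_insert e2]
            have hd1 : Disjoint (Y.erase p) H1 := by
              rw [Finset.disjoint_left]
              intro x hx hx1
              rcases Finset.mem_insert.1 hx1 with h | h
              · exact (Finset.mem_erase.1 hx).1 h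
              · exact Finset.disjoint_left.1 hYd (Finset.mem_of_mem_erase hx) h
            have h1 := hX3 j (Y.erase p) ((Finset.coe_subset.2 (Finset.erase_subset _ _)).trans hY)
              hd1 (fun x hx => (hY2 x (Finset.mem_of_mem_erase hx)).trans (Str.nl_mono hHH1))
            have h2 := nl_term_mono (G := G) hHH1 j (Y.erase p)
            have h3 := hkey j (hY2 p hpY)
            linarith
          · have hd1 : Disjoint Y H1 := by
              rw [Finset.disjoint_left]
              intro x hx hx1
              rcases Finset.mem_insert.1 hx1 with h | h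
              · exact hpY (h ▸ hx)
              · exact Finset.disjoint_left.1 hYd hx h
            have h1 := hX3 j Y hY hd1 (fun x hx => (hY2 x hx).trans (Str.nl_mono hHH1))
            have h2 := nl_term_mono (G := G) hHH1 j Y
            linarith
        · rcases hX4 with h | h
          · left
            intro x hx hxH
            by_cases hxp : x = p
            · rw [hxp]
              exact hpt
            · exact h x hx (fun h1 => by
                rcases Finset.mem_insert.1 h1 with h2 | h2
                · exact hxp h2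
                · exact hxH h2)
          · right
            linarith
      · -- `H` is P-closed
        push Not at hP
        refine ⟨H, ⟨⟨hHZ, ?_, ?_⟩, Finset.Subset.refl _, fun H' _ h => h⟩, Or.inl rfl, ?_, Or.inl ?_⟩
        · intro l hl hN
          exact hL l hl hN
        · intro p hp hpH j
          have := hP p hp hpH j
          omega
        · intro j Y hY hYd hY2
          have : Y = ∅ := by
            rw [Finset.eq_empty_iff_forall_notMem]
            intro p hp
            have h1 := hP p (hY (Finset.mem_coe.2 hp)) (Finset.disjoint_left.1 hYd hp) j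
            have h2 := hY2 p hp
            omega
          rw [this]
          simp
        · intro x hx hx'
          exact absurd hx hx'

theorem pts_part1 {V : Type} [DecidableEq V] {G : Str V} {Z : Set V} {H X : Finset V}
    (hX : G.IsP H X Z) (hpt : ∀ x ∈ X, x ∉ H → G.pt x) :
    ∀ p ∈ X, p ∉ H → ∃ j, 2 ≤ G.nl j p H := by
  set H' := X.filter (fun x => x ∈ H ∨ ∃ j, 2 ≤ G.nl j x H) with hH'
  have hsub : H' ⊆ X := Finset.filter_subset _ _
  have hPC : G.PC H' Z := by
    refine ⟨(Finset.coe_subset.2 hsub).trans hX.1.sub, ?_, ?_⟩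
    · intro l hl hN x hx
      have h1 := hX.1.g1 l hl (hN.trans (Finset.card_le_card (Str.pts_mono hsub))) x hx
      have h2 := N_pos l.1
      obtain ⟨y, hy⟩ : (G.pts l H').Nonempty := by
        rw [← Finset.card_pos]
        omega
      rw [Str.mem_pts] at hy
      have h3 : x ∈ H := by
        by_contra hcon
        exact hy.2.ne hx (hpt x h1 hcon)
      rw [hH', Finset.mem_filter]
      exact ⟨h1, Or.inl h3⟩
    · intro p hp hpH' j
      by_cases hpX : p ∈ X
      · have h1 : p ∉ H := fun h => hpH' (by rw [hH', Finset.mem_filter]; exact ⟨hpX, Or.inl h⟩)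
        have h2 : ¬ 2 ≤ G.nl j p H := fun h =>
          hpH' (by rw [hH', Finset.mem_filter]; exact ⟨hpX, Or.inr ⟨j, h⟩⟩)
        have h3 : G.nl j p H' ≤ G.nl j p H := by
          unfold Str.nl
          apply Finset.card_le_card
          intro l hl
          rw [Finset.mem_filter] at hl ⊢
          refine ⟨?_, hl.2⟩
          have h4 := mem_lin.1 hl.1
          rw [mem_lin]
          refine ⟨h4.1, h4.2.1, fun x hx => ?_⟩
          by_contra hcon
          exact hl.2.2.ne hx (hpt x (hsub (h4.2.2 x hx)) hcon)
        omega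
      · exact (Str.nl_mono hsub).trans (hX.1.g2 p hp hpX j)
  have hHH' : H ⊆ H' := by
    intro x hx
    rw [hH', Finset.mem_filter]
    exact ⟨hX.2.1 hx, Or.inl hx⟩
  intro p hp hpH
  have h1 := hX.2.2 H' hPC hHH' hp
  rw [hH', Finset.mem_filter] at h1
  exact h1.2.resolve_left hpH

theorem pts_part2 {V : Type} [DecidableEq V] {G : Str V} {Z : Set V} {H X : Finset V}
    (hC : S_CALC) (hC1 : G.C1 Z) (hXZ : ↑X ⊆ Z) (h2 : ∀ p ∈ X, p ∉ H → ∃ j, 2 ≤ G.nl j p H) :
    ∀ (n : ℕ) (H' : Finset V), (X \ H').card ≤ n → H ⊆ H' → H' ⊆ X → G.dl X ≤ G.dl H' := by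
  intro n
  induction n with
  | zero =>
    intro H' hn _ hH'X
    have : H' = X := by
      apply Finset.Subset.antisymm hH'X
      rw [← Finset.sdiff_eq_empty_iff_subset, ← Finset.card_eq_zero]
      omega
    rw [this]
  | succ n ih =>
    intro H' hn hHH' hH'X
    by_cases hne : (X \ H').Nonempty
    · obtain ⟨p, hp⟩ := hne
      rw [Finset.mem_sdiff] at hp
      obtain ⟨j, hj⟩ := h2 p hp.1 (fun h => hp.2 (hHH' h))
      have hj' : 2 ≤ G.nl j p H' := hj.trans (Str.nl_mono hHH')
      have h3 := key_P hC hC1 ((Finset.coe_subset.2 hH'X).trans hXZ) hp.2 hj'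
      have h4 : (2 : ℝ) ≤ G.nl j p H' := by exact_mod_cast hj'
      have h5 := q_pos j
      have h6 : 0 < q j / 4 * (2 * (G.nl j p H' : ℝ) - 3) := by
        apply mul_pos <;> linarith
      have h7 := ih (insert p H') (by
        have : (X \ insert p H').card < (X \ H').card := by
          apply Finset.card_lt_card
          rw [Finset.ssubset_iff_of_subset
            (Finset.sdiff_subset_sdiff (Finset.Subset.refl _) (Finset.subset_insert _ _))]
          refine ⟨p, Finset.mem_sdiff.2 hp, fun h => ?_⟩
          exact (Finset.mem_sdiff.1 h).2 (Finset.mem_insert_self _ _)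
        omega) (hHH'.trans (Finset.subset_insert _ _)) (Finset.insert_subset hp.1 hH'X)
      linarith
    · rw [Finset.not_nonempty_iff_eq_empty, Finset.sdiff_eq_empty_iff_subset] at hne
      rw [Finset.Subset.antisymm hH'X hne]

theorem HULL : S_CALC → S_HULL := by
  intro hC
  refine ⟨?_, ?_, ?_⟩
  · intro V _ G Z H C hC1 hPC hHC hinv
    exact hull_aux hC hC1 hPC _ H le_rfl hHC hinv
  · intro V _ G Z H X hC1 hX hpt
    refine ⟨pts_part1 hX hpt, fun H' h1 h2 => ?_⟩
    exact pts_part2 hC hC1 hX.1.sub (pts_part1 hX hpt) _ H' le_rfl h1 h2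
  · intro V _ G Z C v hC1 hCZ hv h1 h2
    exact insert_wt_le hC hC1 hCZ hv h1 h2

end Run7.h416.LW
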