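import Pool.Agent.Run7.h520.LW.I

/-!
Increments of the predimension: adding letters, adding a point.
-/

set_option autoImplicit false
set_option linter.all false

namespace Run7.h416.LW
open Classical Finset Run7.h520.LW

variable {V : Type} [DecidableEq V] {G : Str V}

theorem lin_eq_empty {X : Finset V} (h : X.card < 64) : lin X = ∅ := by
  rw [Finset.eq_empty_iff_forall_notMem]
  intro l hl
  have h1 := (mem_lin.1 hl).card
  have h2 := g_ge l.1
  omega

/-- no points: only the weight -/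
theorem dl_nopt {T : Finset V} (hT : ∀ x ∈ T, ¬ G.pt x) : G.dl T = wt * T.card := by
  have h1 : G.ed T = ∅ := by
    rw [Finset.eq_empty_iff_forall_notMem]
    intro e he
    rw [Str.mem_ed] at he
    exact hT _ he.1 he.2.2.1
  have h2 : G.ic T = ∅ := by
    rw [Finset.eq_empty_iff_forall_notMem]
    intro e he
    rw [Str.mem_ic] at he
    exact hT _ he.1 he.2.2.1
  have h3 : G.fl T = ∅ := by
    rw [Finset.eq_empty_iff_forall_notMem]
    intro e he
    rw [Str.mem_fl, h1] at he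
    exact absurd he.1 (Finset.notMem_empty _)
  unfold Str.dl
  rw [h1, h2, h3]
  simp

theorem dl_single (p : V) : G.dl {p} = wt := by
  have h1 : G.ed {p} = ∅ := by
    rw [Finset.eq_empty_iff_forall_notMem]
    intro e he
    rw [Str.mem_ed] at he
    obtain ⟨h1, h2, h3⟩ := he
    rw [Finset.mem_singleton] at h1 h2
    exact h3.2.2.1 (h1.trans h2.symm)
  have h4 : lin ({p} : Finset V) = ∅ := lin_eq_empty (by simp)
  have h2 : G.ic {p} = ∅ := by
    rw [Finset.eq_empty_iff_forall_notMem]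
    intro e he
    rw [Str.mem_ic, h4] at he
    exact absurd he.2.1 (Finset.notMem_empty _)
  have h3 : G.fl {p} = ∅ := by
    rw [Finset.eq_empty_iff_forall_notMem]
    intro e he
    rw [Str.mem_fl, h1] at he
    exact absurd he.1 (Finset.notMem_empty _)
  unfold Str.dl
  rw [h1, h2, h3]
  simp

theorem mem_nic {A B : Finset V} {e : V × (ℕ × List V)} :
    e ∈ G.nic A B ↔ e ∈ G.ic (A ∪ B) ∧ e ∉ G.ic A ∧ e ∉ G.ic B := by
  unfold Str.nic
  rw [Finset.mem_filter]

theorem mem_ned {A B : Finset V} {e : V × V} :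
    e ∈ G.ned A B ↔ e ∈ G.ed (A ∪ B) ∧ e ∉ G.ed A ∧ e ∉ G.ed B := by
  unfold Str.ned
  rw [Finset.mem_filter]

theorem mem_nfl {A B : Finset V} {e : (V × V) × (ℕ × List V)} :
    e ∈ G.nfl A B ↔ e ∈ G.fl (A ∪ B) ∧ e ∉ G.fl A ∧ e ∉ G.fl B := by
  unfold Str.nfl
  rw [Finset.mem_filter]

/-- Adding letters. -/
theorem dl_letters (hC : S_CALC) {A T : Finset V} (hT : ∀ x ∈ T, ¬ G.pt x) (hd : Disjoint A T)
    (M : ℕ → ℝ) (hM : ∀ l ∈ lin (A ∪ T), l ∉ lin A → ((G.pts l A).card : ℝ) ≤ M l.1) :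
    G.dl (A ∪ T) + ∑ p ∈ G.nic A T, (a p.2.1 - M p.2.1 * q (p.2.1 + 1)) ≤
      G.dl A + wt * T.card := by
  have h1 := hC.incl G A T
  rw [Finset.disjoint_iff_inter_eq_empty.1 hd, Str.dl_empty, dl_nopt hT] at h1
  have hw : 0 ≤ w 0 * (G.ned A T).card := mul_nonneg (w_pos 0).le (Nat.cast_nonneg _)
  have hpt : ∀ x ∈ A ∪ T, G.pt x → x ∈ A := by
    intro x hx hxp
    rcases Finset.mem_union.1 hx with h | h
    · exact h
    · exact absurd hxp (hT x h)
  have hmaps : ∀ e ∈ G.nfl A T, (e.1.1, e.2) ∈ G.nic A T := by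
    intro e he
    rw [mem_nfl, Str.mem_fl, Str.mem_fl, Str.mem_ed, Str.mem_ed] at he
    obtain ⟨⟨⟨h2, h3, h4⟩, h5, h6, h7⟩, h8, _⟩ := he
    rw [mem_nic, Str.mem_ic, Str.mem_ic, Str.mem_ic]
    refine ⟨⟨h2, h5, h6⟩, fun h => h8 ⟨⟨hpt _ h2 h4.1, hpt _ h3 h4.2.1, h4⟩, h.2.1, h6, h7⟩,
      fun h => hT _ h.1 h4.1⟩
  have h2 : ∑ e ∈ G.nfl A T, q (e.2.1 + 1) ≤ ∑ p ∈ G.nic A T, M p.2.1 * q (p.2.1 + 1) := by
    rw [← Finset.sum_fiberwise_of_maps_to hmaps]
    apply Finset.sum_le_sum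
    rintro ⟨x, l⟩ hp
    have e1 : ∑ e ∈ (G.nfl A T).filter (fun e => (e.1.1, e.2) = (x, l)), q (e.2.1 + 1) =
        ((G.nfl A T).filter (fun e => (e.1.1, e.2) = (x, l))).card * q (l.1 + 1) := by
      rw [← nsmul_eq_mul]
      apply Finset.sum_eq_card_nsmul
      intro e he
      rw [Finset.mem_filter] at he
      have : e.2 = l := (Prod.mk.injEq _ _ _ _ ▸ he.2).2
      rw [this]
    rw [e1]
    apply mul_le_mul_of_nonneg_right _ (q_pos _).le
    rw [mem_nic, Str.mem_ic, Str.mem_ic] at hp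
    have hl : l ∉ lin A := fun h => hp.2.1 ⟨hpt _ hp.1.1 hp.1.2.2.1, h, hp.1.2.2⟩
    refine le_trans ?_ (hM l hp.1.2.1 hl)
    have : ((G.nfl A T).filter (fun e => (e.1.1, e.2) = (x, l))).card ≤ (G.pts l A).card := by
      apply Finset.card_le_card_of_injOn (fun e => e.1.2)
      · intro e he
        rw [Finset.mem_coe, Finset.mem_filter, mem_nfl, Str.mem_fl, Str.mem_ed] at he
        obtain ⟨⟨⟨⟨h2, h3, h4⟩, h5, h6, h7⟩, _⟩, h8⟩ := he
        have h9 : e.2 = l := (Prod.mk.injEq _ _ _ _ ▸ h8).2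
        rw [Finset.mem_coe, Str.mem_pts]
        exact ⟨hpt _ h3 h4.2.1, h9 ▸ h7⟩
      · intro e he e' he' hee
        rw [Finset.mem_coe, Finset.mem_filter] at he he'
        have h9 := he.2
        have h10 := he'.2
        rw [Prod.mk.injEq] at h9 h10
        have : e.1 = e'.1 := Prod.ext (h9.1.trans h10.1.symm) hee
        exact Prod.ext this (h9.2.trans h10.2.symm)
    exact_mod_cast this
  rw [Finset.sum_sub_distrib]
  linarith

/-- Adding a point: the exact formula as an inequality. -/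
theorem dl_point (hC : S_CALC) {A : Finset V} {p : V} (hp : p ∉ A) (hpt : G.pt p) :
    G.dl (insert p A) + ∑ l ∈ (lin A).filter (fun l => G.On p l), a l.1 ≤
      G.dl A + wt + 2 * ∑ x ∈ A.filter (fun x => G.R p x),
        (∑ l ∈ (lin A).filter (fun l => G.On p l ∧ G.On x l), q (l.1 + 1) - w 0) := by
  have h1 := hC.incl G A {p}
  have hAp : A ∪ {p} = insert p A := by
    rw [Finset.union_comm, ← Finset.insert_eq]
  have hdis : A ∩ {p} = ∅ := by
    rw [← Finset.disjoint_iff_inter_eq_empty, Finset.disjoint_singleton_right]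
    exact hp
  rw [hAp, hdis, Str.dl_empty, dl_single] at h1
  -- lines with points have no letter `p`
  have hlin : ∀ l ∈ lin (insert p A), (∃ x, G.On x l) → l ∈ lin A := by
    rintro l hl ⟨x, hx⟩
    rw [mem_lin] at hl ⊢
    refine ⟨hl.1, hl.2.1, fun y hy => ?_⟩
    rcases Finset.mem_insert.1 (hl.2.2 y hy) with h | h
    · exact absurd (h ▸ hpt) (hx.ne hy)
    · exact h
  -- the incidences
  have h2 : ∑ l ∈ (lin A).filter (fun l => G.On p l), a l.1 ≤ ∑ e ∈ G.nic A {p}, a e.2.1 := by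
    have e1 : ∑ l ∈ (lin A).filter (fun l => G.On p l), a l.1 =
        ∑ e ∈ ((lin A).filter (fun l => G.On p l)).image (fun l => (p, l)), a e.2.1 := by
      rw [Finset.sum_image]
      intro x _ y _ hxy
      exact (Prod.mk.injEq _ _ _ _ ▸ hxy).2
    rw [e1]
    apply Finset.sum_le_sum_of_subset_of_nonneg
    · intro e he
      rw [Finset.mem_image] at he
      obtain ⟨l, hl, rfl⟩ := he
      rw [Finset.mem_filter] at hl
      rw [mem_nic, Str.mem_ic, Str.mem_ic, Str.mem_ic, hAp]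
      refine ⟨⟨Finset.mem_insert_self _ _, lin_mono (Finset.subset_insert _ _) hl.1, hl.2⟩,
        fun h => hp h.1, fun h => ?_⟩
      rw [lin_eq_empty (by simp)] at h
      exact absurd h.2.1 (Finset.notMem_empty _)
    · intro e _ _
      exact (a_pos _).le
  -- the edges
  set D := A.filter (fun x => G.R p x) with hD
  have h3 : 2 * D.card ≤ (G.ned A {p}).card := by
    have e1 : (D.image (fun x => (p, x)) ∪ D.image (fun x => (x, p))).card = 2 * D.card := by
      rw [Finset.card_union_of_disjoint, Finset.card_image_of_injective, Finset.card_image_of_injective]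
      · ring
      · intro x y hxy
        exact (Prod.mk.injEq _ _ _ _ ▸ hxy).1
      · intro x y hxy
        exact (Prod.mk.injEq _ _ _ _ ▸ hxy).2
      · rw [Finset.disjoint_left]
        intro e he he'
        rw [Finset.mem_image] at he he'
        obtain ⟨x, hx, rfl⟩ := he
        obtain ⟨y, hy, hxy⟩ := he'
        rw [Prod.mk.injEq] at hxy
        rw [hD, Finset.mem_filter] at hy
        exact hp (hxy.1 ▸ hy.1)
    rw [← e1]
    apply Finset.card_le_card
    intro e he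
    rw [mem_ned, Str.mem_ed, Str.mem_ed, Str.mem_ed, hAp]
    rw [Finset.mem_union, Finset.mem_image, Finset.mem_image] at he
    rcases he with ⟨x, hx, rfl⟩ | ⟨x, hx, rfl⟩
    · rw [hD, Finset.mem_filter] at hx
      refine ⟨⟨Finset.mem_insert_self _ _, Finset.mem_insert_of_mem hx.1, hx.2⟩,
        fun h => hp h.1, fun h => ?_⟩
      exact hx.2.2.2.1 (Finset.mem_singleton.1 h.2.1).symm
    · rw [hD, Finset.mem_filter] at hx
      refine ⟨⟨Finset.mem_insert_of_mem hx.1, Finset.mem_insert_self _ _, hx.2.symm⟩,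
        fun h => hp h.2.1, fun h => ?_⟩
      exact hx.2.2.2.1 (Finset.mem_singleton.1 h.1).symm
  -- the flags
  set F := (D ×ˢ lin A).filter (fun e => G.On p e.2 ∧ G.On e.1 e.2) with hF
  have h4 : ∑ e ∈ G.nfl A {p}, q (e.2.1 + 1) ≤ 2 * ∑ e ∈ F, q (e.2.1 + 1) := by
    have e1 : ∑ e ∈ F.image (fun e => ((p, e.1), e.2)), q (e.2.1 + 1) = ∑ e ∈ F, q (e.2.1 + 1) := by
      rw [Finset.sum_image]
      intro x _ y _ hxy
      simp only [Prod.mk.injEq, true_and] at hxy
      exact Prod.ext hxy.1 hxy.2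
    have e2 : ∑ e ∈ F.image (fun e => ((e.1, p), e.2)), q (e.2.1 + 1) = ∑ e ∈ F, q (e.2.1 + 1) := by
      rw [Finset.sum_image]
      intro x _ y _ hxy
      simp only [Prod.mk.injEq, and_true] at hxy
      exact Prod.ext hxy.1 hxy.2
    have hsub : G.nfl A {p} ⊆ F.image (fun e => ((p, e.1), e.2)) ∪
        F.image (fun e => ((e.1, p), e.2)) := by
      rintro ⟨⟨x, y⟩, l⟩ he
      rw [mem_nfl, Str.mem_fl, Str.mem_fl, Str.mem_ed, Str.mem_ed, hAp] at he
      obtain ⟨⟨⟨h2, h3, h4⟩, h5, h6, h7⟩, h8, _⟩ := he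
      simp only at h2 h3 h4 h5 h6 h7 h8
      have hlA : l ∈ lin A := hlin l h5 ⟨x, h6⟩
      rw [Finset.mem_union, Finset.mem_image, Finset.mem_image]
      rcases Finset.mem_insert.1 h2 with hx | hx
      · subst hx
        left
        rcases Finset.mem_insert.1 h3 with hy | hy
        · exact absurd hy.symm h4.2.2.1
        · refine ⟨(y, l), ?_, rfl⟩
          rw [hF, Finset.mem_filter, Finset.mem_product, hD, Finset.mem_filter]
          exact ⟨⟨⟨hy, h4⟩, hlA⟩, h6, h7⟩
      · rcases Finset.mem_insert.1 h3 with hy | hy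
        · subst hy
          right
          refine ⟨(x, l), ?_, rfl⟩
          rw [hF, Finset.mem_filter, Finset.mem_product, hD, Finset.mem_filter]
          exact ⟨⟨⟨hx, h4.symm⟩, hlA⟩, h7, h6⟩
        · exact absurd ⟨⟨hx, hy, h4⟩, hlA, h6, h7⟩ h8
    calc ∑ e ∈ G.nfl A {p}, q (e.2.1 + 1)
        ≤ ∑ e ∈ F.image (fun e => ((p, e.1), e.2)) ∪ F.image (fun e => ((e.1, p), e.2)),
          q (e.2.1 + 1) :=
          Finset.sum_le_sum_of_subset_of_nonneg hsub (fun _ _ _ => (q_pos _).le)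
      _ ≤ ∑ e ∈ F.image (fun e => ((p, e.1), e.2)), q (e.2.1 + 1) +
          ∑ e ∈ F.image (fun e => ((e.1, p), e.2)), q (e.2.1 + 1) := by
          rw [← Finset.sum_union_inter]
          have : 0 ≤ ∑ e ∈ F.image (fun e => ((p, e.1), e.2)) ∩ F.image (fun e => ((e.1, p), e.2)),
              q (e.2.1 + 1) := Finset.sum_nonneg (fun _ _ => (q_pos _).le)
          linarith
      _ = 2 * ∑ e ∈ F, q (e.2.1 + 1) := by rw [e1, e2]; ring
  have h5 : ∑ e ∈ F, q (e.2.1 + 1) = ∑ x ∈ D,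
      ∑ l ∈ (lin A).filter (fun l => G.On p l ∧ G.On x l), q (l.1 + 1) := by
    rw [hF, Finset.sum_filter, Finset.sum_product]
    apply Finset.sum_congr rfl
    intro x _
    rw [Finset.sum_filter]
  rw [Finset.sum_sub_distrib, Finset.sum_const, nsmul_eq_mul, ← h5]
  have h6 : w 0 * (2 * (D.card : ℝ)) ≤ w 0 * (G.ned A {p}).card := by
    apply mul_le_mul_of_nonneg_left _ (w_pos 0).le
    exact_mod_cast h3
  linarith

end Run7.h416.LW
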